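import Pool.Agent.Lib.MP_31cf03_an.Main

set_option autoImplicit false
open MeasureTheory

namespace Pool.Agent.Results.MP_31cf03_an.HyperbolicCross

/-- The hyperbolic cross `Γ(N) = {k ∈ ℤ^d : ∏_j max(|k_j|, 1) ≤ N}`. -/
def Gam (d : ℕ) (N : ℝ) : Set (Fin d → ℤ) := {k | ∏ j, max |(k j : ℝ)| 1 ≤ N}

/-- The exponential `x ↦ e^{i(k,x)}`. -/
noncomputable def char {d : ℕ} (k : Fin d → ℤ) (x : Fin d → ℝ) : ℂ :=
  Complex.exp (Complex.I * ∑ j, (k j : ℂ) * (x j : ℂ))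

/-- The space `𝒯(N)` of complex trigonometric polynomials with frequencies in `Γ(N)`. -/
noncomputable def TPoly (d : ℕ) (N : ℝ) : Submodule ℂ ((Fin d → ℝ) → ℂ) :=
  Submodule.span ℂ (char '' Gam d N)

/-- The torus `[0,2π)^d`. -/
def torus (d : ℕ) : Set (Fin d → ℝ) := Set.pi Set.univ (fun _ => Set.Ico 0 (2 * Real.pi))

/-- The Fourier coefficient `(2π)^{-d} ∫_{[0,2π)^d} f(x) e^{-i(k,x)} dx`. -/
noncomputable def fcoeff {d : ℕ} (f : (Fin d → ℝ) → ℂ) (k : Fin d → ℤ) : ℂ :=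
  ((((2 * Real.pi) ^ d)⁻¹ : ℝ) : ℂ) *
    ∫ x in torus d, f x * Complex.exp (-(Complex.I * ∑ j, (k j : ℂ) * (x j : ℂ)))

/-- The norm `‖f‖₁ = (2π)^{-d} ∫_{[0,2π)^d} |f(x)| dx`. -/
noncomputable def norm1 {d : ℕ} (f : (Fin d → ℝ) → ℂ) : ℝ :=
  ((2 * Real.pi) ^ d)⁻¹ * ∫ x in torus d, ‖f x‖

/-- The quotients `(∑_{k ∈ Γ(N)} |t^(k)|) / ‖t‖₁` for non-zero `t ∈ 𝒯(N)`. -/
def ratios (d : ℕ) (N : ℝ) : Set ℝ :=
  {r | ∃ t ∈ TPoly d N, t ≠ 0 ∧ r = (∑' k : Gam d N, ‖fcoeff t k‖) / norm1 t}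

/-- `A_d(N)`, the supremum of the quotients. -/
noncomputable def A (d : ℕ) (N : ℝ) : ℝ := sSup (ratios d N)

open Pool.Agent.Lib.MP_31cf03_an in
lemma mu_eq (d : ℕ) : μ d = ENNReal.ofReal (((2 * Real.pi) ^ d)⁻¹) •
    ((volume : Measure (Fin d → ℝ)).restrict (torus d)) := by
  unfold μ torus
  rw [volume_pi, Measure.restrict_pi_pi]
  apply Measure.pi_eq
  intro s _
  rw [Measure.smul_apply, Measure.pi_pi, smul_eq_mul]
  unfold ν
  simp only [Measure.smul_apply, smul_eq_mul]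
  rw [Finset.prod_mul_distrib, Finset.prod_const, Finset.card_univ, Fintype.card_fin,
    ← ENNReal.ofReal_pow (by positivity), inv_pow]

open Pool.Agent.Lib.MP_31cf03_an in
lemma int_mu {d : ℕ} {E : Type*} [NormedAddCommGroup E] [NormedSpace ℝ E] (f : (Fin d → ℝ) → E) :
    ∫ x, f x ∂(μ d) = ((2 * Real.pi) ^ d)⁻¹ • ∫ x in torus d, f x := by
  rw [mu_eq, integral_smul_measure, ENNReal.toReal_ofReal (by positivity)]

open Pool.Agent.Lib.MP_31cf03_an in
lemma char_eq {d : ℕ} (k : Fin d → ℤ) : char k = ee k := by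
  ext x
  unfold char ee e
  rw [Finset.mul_sum, Complex.exp_sum]

lemma Gam_finite (d : ℕ) (N : ℝ) : (Gam d N).Finite := by
  refine (Set.Finite.subset (Finset.finite_toSet
    (Fintype.piFinset (fun _ : Fin d => Finset.Icc (-⌊N⌋) ⌊N⌋))) ?_)
  intro k hk
  rw [Finset.mem_coe, Fintype.mem_piFinset]
  intro j
  have h1 : max |(k j : ℝ)| 1 ≤ ∏ j, max |(k j : ℝ)| 1 := by
    have := Finset.prod_erase_mul Finset.univ (fun j => max |(k j : ℝ)| 1) (Finset.mem_univ j)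
    rw [← this]
    have h2 : 1 ≤ ∏ x ∈ Finset.univ.erase j, max |(k x : ℝ)| 1 := by
      have h4 : ∏ x ∈ Finset.univ.erase j, (1 : ℝ) ≤ ∏ x ∈ Finset.univ.erase j, max |(k x : ℝ)| 1 :=
        Finset.prod_le_prod (fun _ _ => zero_le_one) (fun _ _ => le_max_right _ _)
      simpa using h4
    have h3 : 0 ≤ max |(k j : ℝ)| 1 := by positivity
    nlinarith
  have h2 : |(k j : ℝ)| ≤ N := ((le_max_left _ _).trans h1).trans hk
  have h3 : ((|k j| : ℤ) : ℝ) ≤ N := by rw [Int.cast_abs]; exact h2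
  rw [Finset.mem_Icc, ← abs_le]
  exact Int.le_floor.mpr h3

open Pool.Agent.Lib.MP_31cf03_an in
lemma mem_TPoly {d : ℕ} {N : ℝ} {t : (Fin d → ℝ) → ℂ} :
    t ∈ TPoly d N ↔ ∃ c : (Fin d → ℤ) → ℂ, t = pol (Gam_finite d N).toFinset c := by
  unfold TPoly
  have h1 : char '' Gam d N = char '' ((Gam_finite d N).toFinset : Set (Fin d → ℤ)) := by
    rw [Set.Finite.coe_toFinset]
  rw [h1, Submodule.mem_span_image_finset_iff_exists_fun']
  constructor
  · rintro ⟨c, hc⟩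
    refine ⟨c, ?_⟩
    rw [← hc]
    ext x
    unfold pol
    rw [Finset.sum_apply]
    apply Finset.sum_congr rfl
    intro k _
    rw [Pi.smul_apply, char_eq, smul_eq_mul]
  · rintro ⟨c, hc⟩
    refine ⟨c, ?_⟩
    rw [hc]
    ext x
    unfold pol
    rw [Finset.sum_apply]
    apply Finset.sum_congr rfl
    intro k _
    rw [Pi.smul_apply, char_eq, smul_eq_mul]

open Pool.Agent.Lib.MP_31cf03_an in
lemma norm1_eq {d : ℕ} (t : (Fin d → ℝ) → ℂ) : norm1 t = ∫ x, ‖t x‖ ∂(μ d) := by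
  rw [int_mu]; rfl

open Pool.Agent.Lib.MP_31cf03_an in
lemma fcoeff_eq {d : ℕ} (t : (Fin d → ℝ) → ℂ) (k : Fin d → ℤ) :
    fcoeff t k = ∫ x, t x * (starRingEnd ℂ) (ee k x) ∂(μ d) := by
  rw [int_mu, ← char_eq]
  unfold fcoeff char
  rw [Complex.real_smul]
  congr 2
  ext x
  rw [← Complex.exp_conj]
  congr 2
  simp only [map_mul, map_sum, Complex.conj_I, Complex.conj_ofReal, map_intCast]
  ring

open Pool.Agent.Lib.MP_31cf03_an in
lemma fcoeff_pol {d : ℕ} (G : Finset (Fin d → ℤ)) (c : (Fin d → ℤ) → ℂ) (k : Fin d → ℤ) (hk : k ∈ G) :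
    fcoeff (pol G c) k = c k := by
  classical
  rw [fcoeff_eq]
  have h := integral_pol_conj G c (fun l => if l = k then 1 else 0)
  have h1 : pol G (fun l => if l = k then (1 : ℂ) else 0) = ee k := by
    ext x
    unfold pol
    simp only [ite_mul, one_mul, zero_mul]
    rw [Finset.sum_ite_eq', if_pos hk]
  rw [h1] at h
  rw [h]
  have h2 : ∀ l, c l * (starRingEnd ℂ) (if l = k then (1 : ℂ) else 0) = if l = k then c l else 0 := by
    intro l; split_ifs <;> simp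
  simp_rw [h2]
  rw [Finset.sum_ite_eq', if_pos hk]

open Pool.Agent.Lib.MP_31cf03_an in
lemma tsum_fcoeff {d : ℕ} (N : ℝ) (c : (Fin d → ℤ) → ℂ) :
    ∑' k : Gam d N, ‖fcoeff (pol (Gam_finite d N).toFinset c) k‖ =
      ∑ k ∈ (Gam_finite d N).toFinset, ‖c k‖ := by
  have h1 : ∀ k : Gam d N, ‖fcoeff (pol (Gam_finite d N).toFinset c) k‖ = ‖c k‖ := by
    intro k
    rw [fcoeff_pol _ _ _ ((Gam_finite d N).mem_toFinset.mpr k.2)]
  simp_rw [h1]
  have h2 := Finset.tsum_subtype (Gam_finite d N).toFinset (fun k => ‖c k‖)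
  rw [← h2]
  have h3 : (((Gam_finite d N).toFinset : Set (Fin d → ℤ))) = Gam d N := by
    rw [Set.Finite.coe_toFinset]
  symm
  exact tsum_congr_set_coe (fun k => ‖c k‖) h3

open Pool.Agent.Lib.MP_31cf03_an in
lemma upper (d : ℕ) (N : ℝ) (hN : 1 ≤ N) (r : ℝ) (hr : r ∈ ratios d N) :
    r ≤ (4 ^ (d + 1) * (C1 ^ d) ^ 2) * N := by
  have hC := C1_pos
  obtain ⟨t, ht, _, rfl⟩ := hr
  obtain ⟨c, rfl⟩ := mem_TPoly.mp ht
  rw [tsum_fcoeff, norm1_eq]
  set P : ℝ := N ^ ((1 : ℝ) / 8) with hP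
  have hP8 : P ^ 8 = N := by
    rw [hP, ← Real.rpow_natCast, ← Real.rpow_mul (by linarith)]
    norm_num
  have hP1 : 1 ≤ P := Real.one_le_rpow hN (by norm_num)
  have h := key P hP1 (Gam_finite d N).toFinset (by
    intro k hk
    rw [hP8]
    exact (Gam_finite d N).mem_toFinset.mp hk) c
  rw [hP8] at h
  rcases (integral_nonneg (μ := μ d) (f := fun x => ‖pol (Gam_finite d N).toFinset c x‖)
    (fun x => norm_nonneg _)).eq_or_lt with h0 | h0
  · rw [← h0, div_zero]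
    have : 0 < N := by linarith
    positivity
  · rw [div_le_iff₀ h0]
    exact h

open Pool.Agent.Lib.MP_31cf03_an in
lemma lower (d : ℕ) (hd : 1 ≤ d) (N : ℝ) (hN : 1 ≤ N) : ∃ r ∈ ratios d N, N ≤ r := by
  classical
  obtain ⟨d, rfl⟩ : ∃ d', d = d' + 1 := ⟨d - 1, by omega⟩
  set m : ℕ := ⌊N⌋₊ with hm
  have hmN : (m : ℝ) ≤ N := Nat.floor_le (by linarith)
  have hNm : N < m + 1 := Nat.lt_floor_add_one N
  -- the frequencies (j, 0, ..., 0)
  let κ : ℤ → (Fin (d + 1) → ℤ) := fun j => Fin.cons j (fun _ => 0)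
  have hκ : ∀ i j, κ i = κ j → i = j := by
    intro i j h
    have := congrFun h 0
    simpa [κ] using this
  let G : Finset (Fin (d + 1) → ℤ) := (Finset.range (m + 1)).image (fun j : ℕ => κ j)
  have hGcard : G.card = m + 1 := by
    rw [Finset.card_image_of_injective, Finset.card_range]
    intro i j h
    have := hκ _ _ h
    exact_mod_cast this
  let t : (Fin (d + 1) → ℝ) → ℂ := fun x => pol G (fun _ => 1) x * (starRingEnd ℂ) (pol G (fun _ => 1) x)
  have hee : ∀ (k l : Fin (d + 1) → ℤ) (x : Fin (d + 1) → ℝ),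
      ee k x * (starRingEnd ℂ) (ee l x) = ee (k - l) x := by
    intro k l x
    unfold ee
    rw [map_prod, ← Finset.prod_mul_distrib]
    apply Finset.prod_congr rfl
    intro j _
    rw [e_mul_conj]
    rfl
  have ht_mem : t ∈ TPoly (d + 1) N := by
    have h1 : t = ∑ k ∈ G, ∑ l ∈ G, char (k - l) := by
      ext x
      simp only [t, pol, one_mul]
      rw [map_sum, Finset.sum_mul_sum, Finset.sum_apply]
      apply Finset.sum_congr rfl
      intro k _
      rw [Finset.sum_apply]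
      apply Finset.sum_congr rfl
      intro l _
      rw [hee, char_eq]
    rw [h1]
    apply Submodule.sum_mem
    intro k hk
    apply Submodule.sum_mem
    intro l hl
    apply Submodule.subset_span
    refine ⟨k - l, ?_, rfl⟩
    obtain ⟨i, hi, rfl⟩ := Finset.mem_image.mp hk
    obtain ⟨j, hj, rfl⟩ := Finset.mem_image.mp hl
    rw [Finset.mem_range] at hi hj
    show ∏ j', max |(((κ i - κ j) j' : ℤ) : ℝ)| 1 ≤ N
    rw [Fin.prod_univ_succ]
    have h2 : ∏ j' : Fin d, max |(((κ i - κ j) j'.succ : ℤ) : ℝ)| 1 = 1 := by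
      apply Finset.prod_eq_one
      intro j' _
      simp [κ]
    rw [h2, mul_one]
    simp only [κ, Pi.sub_apply, Fin.cons_zero]
    push_cast
    apply max_le _ hN
    rw [abs_le]
    have hi' : (i : ℝ) ≤ m := by exact_mod_cast Nat.lt_succ_iff.mp hi
    have hj' : (j : ℝ) ≤ m := by exact_mod_cast Nat.lt_succ_iff.mp hj
    have hi0 : (0 : ℝ) ≤ i := by positivity
    have hj0 : (0 : ℝ) ≤ j := by positivity
    constructor <;> linarith
  have hD0 : pol G (fun _ => 1) 0 = (m + 1 : ℝ) := by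
    unfold pol
    have : ∀ k ∈ G, (1 : ℂ) * ee k 0 = 1 := by
      intro k _
      unfold ee e
      simp
    rw [Finset.sum_congr rfl this, Finset.sum_const, hGcard]
    simp
  have ht0 : t 0 = (((m + 1 : ℝ) ^ 2 : ℝ) : ℂ) := by
    simp only [t]
    rw [hD0, Complex.conj_ofReal]
    push_cast
    ring
  have ht_ne : t ≠ 0 := by
    intro h
    rw [h] at ht0
    simp only [Pi.zero_apply] at ht0
    have h1 : ((m + 1 : ℝ) ^ 2) = 0 := by exact_mod_cast ht0.symm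
    have h2 : (0 : ℝ) < (m + 1 : ℝ) ^ 2 := by positivity
    linarith
  have hnorm : norm1 t = m + 1 := by
    rw [norm1_eq]
    have h1 : ∀ x, ((‖t x‖ : ℝ) : ℂ) = t x := by
      intro x
      simp only [t]
      rw [Complex.mul_conj]
      rw [Complex.norm_real, Real.norm_of_nonneg (Complex.normSq_nonneg _)]
    have h2 : ((∫ x, ‖t x‖ ∂(μ (d + 1)) : ℝ) : ℂ) = ((m + 1 : ℝ) : ℂ) := by
      rw [← integral_complex_ofReal]
      simp_rw [h1]
      simp only [t]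
      rw [integral_pol_conj]
      simp only [map_one, mul_one]
      rw [Finset.sum_const, hGcard]
      simp
    exact_mod_cast h2
  refine ⟨_, ⟨t, ht_mem, ht_ne, rfl⟩, ?_⟩
  obtain ⟨c, hc⟩ := mem_TPoly.mp ht_mem
  rw [hnorm]
  have h1 : (m + 1 : ℝ) ^ 2 ≤ ∑' k : Gam (d + 1) N, ‖fcoeff t k‖ := by
    rw [hc, tsum_fcoeff]
    have h2 : t 0 = ∑ k ∈ (Gam_finite (d + 1) N).toFinset, c k := by
      rw [hc]
      unfold pol
      apply Finset.sum_congr rfl
      intro k _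
      unfold ee e
      simp
    have h3 : ‖t 0‖ ≤ ∑ k ∈ (Gam_finite (d + 1) N).toFinset, ‖c k‖ := by
      rw [h2]; exact norm_sum_le _ _
    rw [ht0, Complex.norm_real, Real.norm_of_nonneg (by positivity)] at h3
    exact h3
  rw [le_div_iff₀ (by positivity)]
  calc N * (m + 1 : ℝ) ≤ (m + 1 : ℝ) * (m + 1 : ℝ) := by
        apply mul_le_mul_of_nonneg_right hNm.le (by positivity)
    _ = (m + 1 : ℝ) ^ 2 := by ring
    _ ≤ _ := h1

/-- **The order of `A_d(N)` is `N`** for every dimension `d ≥ 1`: there is a constant `C`, depending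
only on `d`, such that for every real `N ≥ 1` the quotients are bounded and `N ≤ A_d(N) ≤ C N`. -/
theorem result (d : ℕ) (hd : 1 ≤ d) : ∃ C : ℝ, 0 < C ∧ ∀ N : ℝ, 1 ≤ N →
    BddAbove (ratios d N) ∧ N ≤ A d N ∧ A d N ≤ C * N := by
  have hC := Pool.Agent.Lib.MP_31cf03_an.C1_pos
  refine ⟨4 ^ (d + 1) * (Pool.Agent.Lib.MP_31cf03_an.C1 ^ d) ^ 2, by positivity, ?_⟩
  intro N hN
  have hbdd : BddAbove (ratios d N) := ⟨_, fun r hr => upper d N hN r hr⟩
  obtain ⟨r, hr, hNr⟩ := lower d hd N hN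
  refine ⟨hbdd, hNr.trans (le_csSup hbdd hr), ?_⟩
  exact csSup_le ⟨r, hr⟩ (fun r hr => upper d N hN r hr)

end Pool.Agent.Results.MP_31cf03_an.HyperbolicCross
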